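import Pool.Agent.Work.MP_dcf6a6_c1.Interface
import Pool.Agent.Work.MP_dcf6a6_tv_helper74.CYC

/-!
# Block CYCM: cyclic telescoping on the blocks, with exponents
-/

namespace Pool.C1.helper69

theorem bezout_nat {J : Type} [DecidableEq J] (l : J → ℕ) (s : Finset J) :
    ∃ a : J → ℤ, ∑ j ∈ s, (l j : ℤ) * a j = ((s.gcd l : ℕ) : ℤ) := by
  induction s using Finset.induction_on with
  | empty => exact ⟨0, by simp⟩
  | insert i s hi ih =>
    obtain ⟨a, ha⟩ := ih
    refine ⟨fun j => if j = i then Nat.gcdA (l i) (s.gcd l) else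
      Nat.gcdB (l i) (s.gcd l) * a j, ?_⟩
    rw [Finset.sum_insert hi, Finset.gcd_insert]
    beta_reduce
    rw [if_pos rfl]
    have h1 : ∑ j ∈ s, (l j : ℤ) * (if j = i then Nat.gcdA (l i) (s.gcd l) else
        Nat.gcdB (l i) (s.gcd l) * a j) = ((s.gcd l : ℕ) : ℤ) * Nat.gcdB (l i) (s.gcd l) := by
      rw [← ha, Finset.sum_mul]
      refine Finset.sum_congr rfl fun j hj => ?_
      rw [if_neg (fun h : j = i => hi (h ▸ hj))]
      ring
    rw [h1, ← Nat.gcd_eq_gcd_ab]
    rfl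

theorem prod_zpow_sum {J : Type} [DecidableEq J] (z : ℂ) (hz : z ≠ 0) (f : J → ℤ)
    (s : Finset J) : ∏ j ∈ s, z ^ f j = z ^ (∑ j ∈ s, f j) := by
  induction s using Finset.induction_on with
  | empty => simp
  | insert i s hi ih => rw [Finset.prod_insert hi, Finset.sum_insert hi, zpow_add₀ hz, ih]

theorem stmt_CYCM : Stmt_CYCM := by
  intro J B _ _ _ bl l κ M hl hM hdvd hκ hprod
  classical
  have hml : ∀ j, 0 < M / l j := fun j => Nat.div_pos (Nat.le_of_dvd hM (hdvd j)) (hl j)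
  choose r hr using fun j => IsAlgClosed.exists_pow_nat_eq (κ j) (hml j)
  have hr0 : ∀ j, r j ≠ 0 := by
    intro j h
    apply hκ j
    rw [← hr j, h, zero_pow (hml j).ne']
  set g : B → ℕ := fun b => (Finset.univ.filter fun j => bl j = b).gcd l with hg
  have hgl : ∀ j, g (bl j) ∣ l j := fun j => Finset.gcd_dvd (by simp)
  have hg0 : ∀ j, 0 < g (bl j) := fun j => Nat.pos_of_dvd_of_pos (hgl j) (hl j)
  set ξ : B → ℂ := fun b => ∏ j with bl j = b, r j with hξ
  have hξM : ∀ j, ξ (bl j) ^ (M / g (bl j)) = 1 := by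
    intro i
    rw [← hprod (bl i), hξ]
    simp only
    rw [← Finset.prod_pow]
    refine Finset.prod_congr rfl fun j hj => ?_
    have hj' : bl j = bl i := by simpa using hj
    have h1 : M / g (bl i) = (M / l j) * (l j / g (bl i)) := by
      have h2 := hgl j
      rw [hj'] at h2
      rw [Nat.div_mul_div_comm (hdvd j) h2, mul_comm M (l j)]
      rw [Nat.mul_div_mul_left _ _ (hl j)]
    rw [h1, pow_mul, hr j]
  -- the correcting roots
  have hω : ∀ b, ∃ ω : ℂ, ω ≠ 0 ∧ ((∃ j, bl j = b) → ω ^ g b = ξ b ∧ ω ^ M = 1) := by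
    intro b
    by_cases hb : ∃ j, bl j = b
    · obtain ⟨j, rfl⟩ := hb
      obtain ⟨ω, hω⟩ := IsAlgClosed.exists_pow_nat_eq (ξ (bl j)) (hg0 j)
      have hM1 : ω ^ M = 1 := by
        have h1 : M = g (bl j) * (M / g (bl j)) :=
          (Nat.mul_div_cancel' ((hgl j).trans (hdvd j))).symm
        rw [h1, pow_mul, hω, hξM j]
      refine ⟨ω, ?_, fun _ => ⟨hω, hM1⟩⟩
      rintro rfl
      rw [zero_pow hM.ne'] at hM1
      exact zero_ne_one hM1
    · exact ⟨1, one_ne_zero, fun h => absurd h hb⟩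
  choose ω hω0 hω1 using hω
  choose a ha using fun b => bezout_nat l (Finset.univ.filter fun j => bl j = b)
  set r' : J → ℂ := fun j => r j * (ω (bl j) ^ ((l j : ℤ) * a (bl j) j))⁻¹ with hr'
  have hr'0 : ∀ j, r' j ≠ 0 := fun j => mul_ne_zero (hr0 j) (inv_ne_zero (zpow_ne_zero _ (hω0 _)))
  have hr'p : ∀ j, r' j ^ (M / l j) = κ j := by
    intro j
    have h1 : (ω (bl j) ^ ((l j : ℤ) * a (bl j) j)) ^ (M / l j) = 1 := by
      rw [← zpow_natCast, ← zpow_mul]
      have h2 : (l j : ℤ) * a (bl j) j * ((M / l j : ℕ) : ℤ) = (M : ℤ) * a (bl j) j := by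
        have h3 : ((l j * (M / l j) : ℕ) : ℤ) = (M : ℤ) := by
          rw [Nat.mul_div_cancel' (hdvd j)]
        rw [← h3]
        push_cast
        ring
      rw [h2, zpow_mul, zpow_natCast, (hω1 (bl j) ⟨j, rfl⟩).2, one_zpow]
    rw [hr']
    simp only
    rw [mul_pow, inv_pow, h1, inv_one, mul_one, hr j]
  have hr'1 : ∀ b, ∏ j with bl j = b, r' j = 1 := by
    intro b
    by_cases hb : ∃ j, bl j = b
    · have h1 : ∏ j with bl j = b, r' j =
          ξ b * (∏ j with bl j = b, ω b ^ ((l j : ℤ) * a b j))⁻¹ := by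
        rw [hξ, hr']
        simp only
        rw [← Finset.prod_inv_distrib, ← Finset.prod_mul_distrib]
        refine Finset.prod_congr rfl fun j hj => ?_
        have hj' : bl j = b := by simpa using hj
        rw [hj']
      have h2 : ∏ j with bl j = b, ω b ^ ((l j : ℤ) * a b j) = ω b ^ (g b) := by
        rw [← zpow_natCast, ← ha b]
        exact prod_zpow_sum _ (hω0 b) _ _
      rw [h1, h2, (hω1 b hb).1]
      apply mul_inv_cancel₀
      rw [hξ]
      exact Finset.prod_ne_zero_iff.2 fun j _ => hr0 j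
    · apply Finset.prod_eq_one
      intro j hj
      exact absurd ⟨j, by simpa using hj⟩ hb
  obtain ⟨σ, c, hσ, hc, hσc⟩ := Pool.TVar.helper74.stmt_CYC bl r' (fun _ => 1) hr'0 hr'1
    (fun _ => one_pos)
  refine ⟨σ, c, hσ, hc, fun j => ?_⟩
  have := hσc j
  rw [pow_one] at this
  rw [this, hr'p j]

end Pool.C1.helper69
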