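import Pool.Agent.Work.MP_dcf6a6_c1.Interface

/-!
# Block DEC: decomposition of weight vectors into basic ones
-/

namespace Pool.C1.helper69

theorem sum_sections {J B : Type} [Fintype J] [Fintype B] [DecidableEq J] [DecidableEq B]
    (bl : J → B) (f : J → ℕ) (δ : ℕ) (hδ : ∀ b, ∑ j with bl j = b, f j = δ) (j : J) :
    ∑ s ∈ (Finset.univ : Finset (B → J)).filter (fun s => (∀ b, bl (s b) = b) ∧ j = s (bl j)),
      ∏ b, f (s b) = f j * δ ^ (Fintype.card B - 1) := by
  classical
  have h1 : (Finset.univ : Finset (B → J)).filter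
      (fun s => (∀ b, bl (s b) = b) ∧ j = s (bl j)) =
      Fintype.piFinset (fun b => if b = bl j then {j} else Finset.univ.filter (fun i => bl i = b)) := by
    ext s
    simp only [Finset.mem_filter, Finset.mem_univ, true_and, Fintype.mem_piFinset]
    constructor
    · rintro ⟨h, h'⟩ b
      by_cases hb : b = bl j
      · subst hb
        simp [← h']
      · simp [hb, h b]
    · intro h
      have hj := h (bl j)
      simp only [if_true, Finset.mem_singleton] at hj
      refine ⟨fun b => ?_, hj.symm⟩
      by_cases hb : b = bl j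
      · subst hb
        rw [hj]
      · have := h b
        rw [if_neg hb] at this
        simpa using this
  rw [h1, ← Finset.prod_univ_sum
    (fun b => if b = bl j then {j} else Finset.univ.filter (fun i => bl i = b)) (fun _ i => f i),
    ← Finset.mul_prod_erase Finset.univ _ (Finset.mem_univ (bl j))]
  congr 1
  · simp
  · rw [Finset.prod_congr rfl (g := fun _ => δ), Finset.prod_const,
      Finset.card_erase_of_mem (Finset.mem_univ _), Finset.card_univ]
    intro b hb
    rw [if_neg (Finset.ne_of_mem_erase hb), hδ b]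

theorem stmt_DEC : Stmt_DEC := by
  intro J B _ _ _ _ bl l w δ ds hB hl hw hsurj hδ hds
  classical
  set S : Finset (B → J) := Finset.univ.filter (fun s => ∀ b, bl (s b) = b) with hS
  have hmem : ∀ s, s ∈ S ↔ ∀ b, bl (s b) = b := fun s => by simp [hS]
  have hδ0 : 0 < δ := by
    obtain ⟨b⟩ := hB
    obtain ⟨j, hj⟩ := hsurj b
    rw [← hδ b]
    exact Finset.sum_pos (fun i _ => Nat.mul_pos (hl i) (hw i)) ⟨j, by simp [hj]⟩
  refine ⟨δ ^ (Fintype.card B - 1) * ∏ s ∈ S, ds s,
    fun s => if s ∈ S then (∏ b, l (s b) * w (s b)) * ∏ s' ∈ S.erase s, ds s' else 0,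
    ?_, ?_, ?_⟩
  · exact Nat.mul_pos (pow_pos hδ0 _) (Finset.prod_pos fun s hs => (hds s ((hmem s).1 hs)).1)
  · intro s hs
    simp only
    rw [if_neg]
    rwa [hmem]
  · intro j
    apply Nat.eq_of_mul_eq_mul_left (hl j)
    rw [Finset.mul_sum]
    have h1 : ∀ s ∈ (Finset.univ : Finset (B → J)),
        l j * ((if s ∈ S then (∏ b, l (s b) * w (s b)) * ∏ s' ∈ S.erase s, ds s' else 0) *
          (if j = s (bl j) then ds s / l j else 0)) =
        if ((∀ b, bl (s b) = b) ∧ j = s (bl j)) then
          (∏ b, l (s b) * w (s b)) * ∏ s ∈ S, ds s else 0 := by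
      intro s _
      by_cases hs : s ∈ S
      · have hs' := (hmem s).1 hs
        by_cases hj : j = s (bl j)
        · rw [if_pos hs, if_pos hj, if_pos ⟨hs', hj⟩, ← Finset.mul_prod_erase S _ hs]
          have hdiv : l j * (ds s / l j) = ds s := by
            apply Nat.mul_div_cancel'
            have := (hds s hs').2 (bl j)
            rwa [← hj] at this
          calc _ = (∏ b, l (s b) * w (s b)) * ((l j * (ds s / l j)) *
              ∏ s' ∈ S.erase s, ds s') := by ring
            _ = _ := by rw [hdiv]
        · rw [if_neg hj, mul_zero, mul_zero, if_neg (fun h => hj h.2)]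
      · rw [if_neg hs, zero_mul, mul_zero, if_neg (fun h => hs ((hmem s).2 h.1))]
    rw [Finset.sum_congr rfl h1, ← Finset.sum_filter, ← Finset.sum_mul,
      sum_sections bl (fun j => l j * w j) δ hδ j]
    ring

end Pool.C1.helper69
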