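import Pool.Agent.Work.MP_dcf6a6_c1.Interface

/-!
# Block KERU: the relations between three binary forms are generated by the trinomial
-/

open Polynomial

namespace Pool.C1.helper69

theorem keru_dvd {A P : Type} [CommRing A] [IsDomain A] [IsIntegrallyClosed A] [CommRing P]
    [IsDomain P] [Algebra A P] (hinj : Function.Injective (algebraMap A P)) (F H : A[X]) (t : P)
    (hF : Irreducible F) (hFm : F.Monic) (h1 : aeval t F = 0) (h2 : aeval t H = 0) : F ∣ H := by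
  have : FaithfulSMul A P := (faithfulSMul_iff_algebraMap_injective A P).2 hinj
  have hint : IsIntegral A t := ⟨F, hFm, by rw [← h1]; rfl⟩
  have hd : minpoly A t ∣ F := minpoly.isIntegrallyClosed_dvd hint h1
  have hH : minpoly A t ∣ H := minpoly.isIntegrallyClosed_dvd hint h2
  have hnu : ¬ IsUnit (minpoly A t) := by
    intro hu
    have h3 : aeval t (minpoly A t) = 0 := minpoly.aeval A t
    have h4 : IsUnit (aeval t (minpoly A t)) := hu.map (aeval t)
    rw [h3] at h4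
    exact not_isUnit_zero h4
  have : F ∣ minpoly A t := by
    obtain ⟨c, hc⟩ := hd
    rcases hF.isUnit_or_isUnit hc with h | h
    · exact absurd h hnu
    · obtain ⟨u, rfl⟩ := h
      exact ⟨↑u⁻¹, by rw [hc, mul_assoc, Units.mul_inv, mul_one]⟩
  exact this.trans hH

theorem keru_dvd' {A P : Type} [CommRing A] [IsDomain A] [IsIntegrallyClosed A] [CommRing P]
    [IsDomain P] (φ : A →+* P) (hinj : Function.Injective φ) (F H : A[X]) (t : P)
    (hF : Irreducible F) (hFm : F.Monic) (h1 : F.eval₂ φ t = 0) (h2 : H.eval₂ φ t = 0) :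
    F ∣ H := by
  let _ := φ.toAlgebra
  exact keru_dvd hinj F H t hF hFm h1 h2

theorem aeval_finSucc {P : Type} [CommRing P] [Algebra ℂ P] {n : ℕ} (U : Fin (n + 1) → P)
    (G : MvPolynomial (Fin (n + 1)) ℂ) :
    MvPolynomial.aeval U G = (MvPolynomial.finSuccEquiv ℂ n G).eval₂
      (MvPolynomial.aeval (fun i : Fin n => U i.succ) : MvPolynomial (Fin n) ℂ →ₐ[ℂ] P).toRingHom
      (U 0) := by
  have h : (MvPolynomial.aeval U : MvPolynomial (Fin (n + 1)) ℂ →ₐ[ℂ] P).toRingHom =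
      (Polynomial.eval₂RingHom (MvPolynomial.aeval (fun i : Fin n => U i.succ) :
        MvPolynomial (Fin n) ℂ →ₐ[ℂ] P).toRingHom (U 0)).comp
        (MvPolynomial.finSuccEquiv ℂ n).toRingEquiv.toRingHom := by
    apply MvPolynomial.ringHom_ext
    · intro r
      simp [MvPolynomial.finSuccEquiv_apply]
    · intro i
      refine Fin.cases ?_ (fun i => ?_) i
      · simp [MvPolynomial.finSuccEquiv_X_zero]
      · simp [MvPolynomial.finSuccEquiv_X_succ]
  exact congrArg (fun f : MvPolynomial (Fin (n + 1)) ℂ →+* P => f G) h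

theorem stmt_KERU (hALGI : Stmt_ALGI) (hEISE : Stmt_EISE) : Stmt_KERU := by
  intro U g e κ x hg he hU hzero hκ hrel hx G hG
  have hinj := hALGI (fun i : Fin 2 => U i.succ) (fun i => e i.succ) (fun i => he _)
    (fun i => hU _) (fun p h0 h1 => hzero _ _ (by decide) p h0 h1)
  set F : (MvPolynomial (Fin 2) ℂ)[X] := X ^ g 0 +
      C (MvPolynomial.C (κ 1 / κ 0) * MvPolynomial.X 0 ^ g 1 +
        MvPolynomial.C (κ 2 / κ 0) * MvPolynomial.X 1 ^ g 2) with hF
  have hirr : Irreducible F := hEISE (g 0) (g 1) (g 2) (κ 1 / κ 0) (κ 2 / κ 0) (hg 0) (hg 1)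
    (hg 2) (div_ne_zero (hκ 1) (hκ 0)) (div_ne_zero (hκ 2) (hκ 0))
  have hmon : F.Monic := monic_X_pow_add_C _ (hg 0).ne'
  have h1 : F.eval₂ (MvPolynomial.aeval (fun i : Fin 2 => U i.succ) :
      MvPolynomial (Fin 2) ℂ →ₐ[ℂ] MvPolynomial (Fin 2) ℂ).toRingHom (U 0) = 0 := by
    rw [hF, eval₂_add, eval₂_pow, eval₂_X, eval₂_C]
    have h2 : MvPolynomial.C (κ 0)⁻¹ * ∑ i, MvPolynomial.C (κ i) * U i ^ g i = 0 := by
      rw [hrel, mul_zero]
    rw [Fin.sum_univ_three] at h2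
    have h3 : (MvPolynomial.C (κ 0)⁻¹ : MvPolynomial (Fin 2) ℂ) * MvPolynomial.C (κ 0) = 1 := by
      rw [← MvPolynomial.C_mul, inv_mul_cancel₀ (hκ 0), MvPolynomial.C_1]
    have e1 : (MvPolynomial.C (κ 1 / κ 0) : MvPolynomial (Fin 2) ℂ) =
        MvPolynomial.C (κ 0)⁻¹ * MvPolynomial.C (κ 1) := by
      rw [← MvPolynomial.C_mul, div_eq_inv_mul]
    have e2 : (MvPolynomial.C (κ 2 / κ 0) : MvPolynomial (Fin 2) ℂ) =
        MvPolynomial.C (κ 0)⁻¹ * MvPolynomial.C (κ 2) := by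
      rw [← MvPolynomial.C_mul, div_eq_inv_mul]
    have e3 : (MvPolynomial.aeval (fun i : Fin 2 => U i.succ) :
        MvPolynomial (Fin 2) ℂ →ₐ[ℂ] MvPolynomial (Fin 2) ℂ).toRingHom
        (MvPolynomial.C (κ 1 / κ 0) * MvPolynomial.X 0 ^ g 1 +
        MvPolynomial.C (κ 2 / κ 0) * MvPolynomial.X 1 ^ g 2) =
        MvPolynomial.C (κ 1 / κ 0) * U 1 ^ g 1 + MvPolynomial.C (κ 2 / κ 0) * U 2 ^ g 2 := by
      change MvPolynomial.aeval (fun i : Fin 2 => U i.succ) _ = _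
      rw [map_add, map_mul, map_mul, map_pow, map_pow, MvPolynomial.aeval_X,
        MvPolynomial.aeval_X, MvPolynomial.aeval_C, MvPolynomial.aeval_C]
      rfl
    rw [e3, e1, e2]
    linear_combination h2 - U 0 ^ g 0 * h3
  have h2 : (MvPolynomial.finSuccEquiv ℂ 2 G).eval₂
      (MvPolynomial.aeval (fun i : Fin 2 => U i.succ) :
      MvPolynomial (Fin 2) ℂ →ₐ[ℂ] MvPolynomial (Fin 2) ℂ).toRingHom (U 0) = 0 := by
    rw [← aeval_finSucc, hG]
  obtain ⟨Q, hQ⟩ := keru_dvd' _ hinj F (MvPolynomial.finSuccEquiv ℂ 2 G) (U 0) hirr hmon h1 h2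
  have h3 : MvPolynomial.eval x G = (MvPolynomial.finSuccEquiv ℂ 2 G).eval₂
      (MvPolynomial.aeval (fun i : Fin 2 => x i.succ) :
      MvPolynomial (Fin 2) ℂ →ₐ[ℂ] ℂ).toRingHom (x 0) := by
    rw [← aeval_finSucc, ← MvPolynomial.coe_aeval_eq_eval]
    rfl
  have h4 : F.eval₂ (MvPolynomial.aeval (fun i : Fin 2 => x i.succ) :
      MvPolynomial (Fin 2) ℂ →ₐ[ℂ] ℂ).toRingHom (x 0) = 0 := by
    rw [hF, eval₂_add, eval₂_pow, eval₂_X, eval₂_C]
    change _ + MvPolynomial.aeval (fun i : Fin 2 => x i.succ) _ = _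
    rw [map_add, map_mul, map_mul, map_pow, map_pow, MvPolynomial.aeval_X,
        MvPolynomial.aeval_X, MvPolynomial.aeval_C, MvPolynomial.aeval_C]
    rw [Fin.sum_univ_three] at hx
    change x 0 ^ g 0 + (κ 1 / κ 0 * x 1 ^ g 1 + κ 2 / κ 0 * x 2 ^ g 2) = 0
    have := hκ 0
    field_simp
    linear_combination hx
  rw [h3, hQ, eval₂_mul, h4, zero_mul]

end Pool.C1.helper69
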