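import Pool.Agent.Work.MP_dcf6a6_c1.Interface

/-!
# Block REV: the coordinate change `t ↦ 1 / t`
-/

open Polynomial

namespace Pool.C1.helper69

theorem natDegree_reflect_le' {N : ℕ} {p : ℂ[X]} (hp : p.natDegree ≤ N) :
    (p.reflect N).natDegree ≤ N :=
  natDegree_reflect_le.trans (by simp [hp])

theorem reflect_pow' (p : ℂ[X]) {c : ℕ} (hp : p.natDegree ≤ c) (k : ℕ) :
    (p ^ k).reflect (k * c) = (p.reflect c) ^ k := by
  induction k with
  | zero => simp
  | succ k ih =>
    rw [pow_succ, pow_succ, Nat.succ_mul, reflect_mul _ _ _ hp, ih]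
    exact (natDegree_pow_le).trans (Nat.mul_le_mul_left _ hp)

theorem reflect_prod' {J : Type} [DecidableEq J] (f : J → ℂ[X]) (n : J → ℕ)
    (hf : ∀ j, (f j).natDegree ≤ n j) (s : Finset J) :
    (∏ j ∈ s, f j).natDegree ≤ ∑ j ∈ s, n j ∧
      (∏ j ∈ s, f j).reflect (∑ j ∈ s, n j) = ∏ j ∈ s, (f j).reflect (n j) := by
  induction s using Finset.induction_on with
  | empty => simp
  | insert i s hi ih =>
    rw [Finset.prod_insert hi, Finset.sum_insert hi, Finset.prod_insert hi]
    refine ⟨natDegree_mul_le.trans (Nat.add_le_add (hf i) ih.1), ?_⟩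
    rw [reflect_mul _ _ (hf i) ih.1, ih.2]

theorem reflect_sum' {J : Type} [DecidableEq J] (f : J → ℂ[X]) (N : ℕ) (s : Finset J) :
    (∑ j ∈ s, f j).reflect N = ∑ j ∈ s, (f j).reflect N := by
  induction s using Finset.induction_on with
  | empty => simp
  | insert i s hi ih => rw [Finset.sum_insert hi, Finset.sum_insert hi, reflect_add, ih]

theorem isCoprime_X_of_coeff {p : ℂ[X]} (h : p.coeff 0 ≠ 0) : IsCoprime p X := by
  refine ⟨C (p.coeff 0)⁻¹, - (C (p.coeff 0)⁻¹ * p.divX), ?_⟩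
  have h1 : p.divX * X + C (p.coeff 0) = p := divX_mul_X_add p
  have h2 : C (p.coeff 0)⁻¹ * C (p.coeff 0) = 1 := by
    rw [← C_mul, inv_mul_cancel₀ h, C_1]
  linear_combination (C (p.coeff 0)⁻¹) * (-h1) + h2

theorem isCoprime_reflect {p q : ℂ[X]} {m n : ℕ} (hp : p.natDegree = m) (hq : q.natDegree = n)
    (hp0 : p ≠ 0) (h : IsCoprime p q) : IsCoprime (p.reflect m) (q.reflect n) := by
  obtain ⟨a, b, hab⟩ := h
  set N : ℕ := a.natDegree + m + (b.natDegree + n) with hN
  have h1 : (a * p).reflect N = a.reflect (N - m) * p.reflect m := by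
    have h2 : N = (N - m) + m := by omega
    conv_lhs => rw [h2]
    exact reflect_mul _ _ (by omega) hp.le
  have h2 : (b * q).reflect N = b.reflect (N - n) * q.reflect n := by
    have h2 : N = (N - n) + n := by omega
    conv_lhs => rw [h2]
    exact reflect_mul _ _ (by omega) hq.le
  have h3 : a.reflect (N - m) * p.reflect m + b.reflect (N - n) * q.reflect n = X ^ N := by
    rw [← h1, ← h2, ← reflect_add, hab, reflect_one]
  have h4 : IsCoprime (p.reflect m) (X ^ N) := by
    apply IsCoprime.pow_right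
    apply isCoprime_X_of_coeff
    rw [coeff_reflect, revAt_zero, ← hp]
    exact leadingCoeff_ne_zero.2 hp0
  obtain ⟨x, y, hxy⟩ := h4
  refine ⟨x + y * a.reflect (N - m), y * b.reflect (N - n), ?_⟩
  linear_combination hxy + y * h3

variable {J B : Type} [Fintype J] [Fintype B] [DecidableEq J] [DecidableEq B] (D : BData J B)

theorem uu_reflect (c : J → ℕ) (d : ℕ) (τ : J → ℂ[X]) (hdeg : ∀ j, (τ j).natDegree ≤ c j)
    (b : B) (hbal : ∑ j with D.bl j = b, D.l j * c j = d) :
    D.uu (fun j => (τ j).reflect (c j)) b = (D.uu τ b).reflect d := by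
  unfold BData.uu
  rw [← hbal]
  rw [(reflect_prod' (fun j => τ j ^ D.l j) (fun j => D.l j * c j) (fun j =>
    natDegree_pow_le.trans (Nat.mul_le_mul_left _ (hdeg j))) _).2]
  refine Finset.prod_congr rfl fun j _ => ?_
  rw [reflect_pow' _ (hdeg j)]

theorem du_reflect (c : J → ℕ) (d : ℕ) (τ σ : J → ℂ[X]) (hdeg : ∀ j, (τ j).natDegree ≤ c j)
    (hσ : ∀ j, (σ j).natDegree ≤ c j)
    (b : B) (hbal : ∑ j with D.bl j = b, D.l j * c j = d) :
    D.du (fun j => (τ j).reflect (c j)) (fun j => (σ j).reflect (c j)) b =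
      (D.du τ σ b).reflect d := by
  unfold BData.du
  rw [reflect_sum']
  refine Finset.sum_congr rfl fun j hj => ?_
  have hl : D.l j = (D.l j - 1) + 1 := by have := D.l_pos j; omega
  have h1 := reflect_prod' (fun j => τ j ^ D.l j) (fun j => D.l j * c j) (fun j =>
    natDegree_pow_le.trans (Nat.mul_le_mul_left _ (hdeg j)))
    ((Finset.univ.filter fun i => D.bl i = b).erase j)
  have h2 : d = (0 + (D.l j - 1) * c j + c j) +
      ∑ i ∈ (Finset.univ.filter fun i => D.bl i = b).erase j, D.l i * c i := by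
    rw [← hbal, ← Finset.add_sum_erase _ _ hj]
    congr 1
    conv_lhs => rw [hl]
    ring
  have d1 : (τ j ^ (D.l j - 1)).natDegree ≤ (D.l j - 1) * c j :=
    natDegree_pow_le.trans (Nat.mul_le_mul_left _ (hdeg j))
  have d2 : (C (D.l j : ℂ) * τ j ^ (D.l j - 1)).natDegree ≤ 0 + (D.l j - 1) * c j :=
    natDegree_mul_le.trans (Nat.add_le_add (natDegree_C _).le d1)
  have d3 : (C (D.l j : ℂ) * τ j ^ (D.l j - 1) * σ j).natDegree ≤ 0 + (D.l j - 1) * c j + c j :=
    natDegree_mul_le.trans (Nat.add_le_add d2 (hσ j))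
  rw [h2, reflect_mul _ _ d3 h1.1, h1.2, reflect_mul _ _ d2 (hσ j), Nat.zero_add,
    reflect_C_mul, reflect_pow' _ (hdeg j)]
  congr 1
  refine Finset.prod_congr rfl fun i _ => ?_
  rw [reflect_pow' _ (hdeg i)]

theorem stmt_REV : Stmt_REV := by
  intro J B _ _ _ _ D c d τ u v hsol hτ0
  have hle : ∀ j, (τ j).natDegree ≤ c j := fun j => (hsol.deg j).le
  have hcoeff : ∀ j, ((τ j).reflect (c j)).coeff (c j) ≠ 0 := by
    intro j
    rw [coeff_reflect, revAt_le le_rfl, Nat.sub_self]
    exact hτ0 j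
  refine ⟨⟨?_, ?_, hsol.bal, ?_, ?_⟩, ?_⟩
  · intro j
    exact le_antisymm (natDegree_reflect_le' (hle j)) (le_natDegree_of_ne_zero (hcoeff j))
  · intro j h
    apply hcoeff j
    rw [h, coeff_zero]
  · intro b
    rw [uu_reflect D c d τ hle b (hsol.bal b), hsol.rel b, reflect_add, reflect_C_mul,
      reflect_C_mul]
  · intro i j hij
    exact isCoprime_reflect (hsol.deg i) (hsol.deg j) (hsol.ne i) (hsol.cop i j hij)
  · intro hreg P hP
    obtain ⟨σ, p, q, hσ, hp, hq, h⟩ := hreg (fun b => (P b).reflect d)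
      (fun b => natDegree_reflect_le' (hP b))
    refine ⟨fun j => (σ j).reflect (c j), p.reflect d, q.reflect d,
      fun j => natDegree_reflect_le' (hσ j), natDegree_reflect_le' hp,
      natDegree_reflect_le' hq, fun b => ?_⟩
    rw [du_reflect D c d τ σ hle hσ b (hsol.bal b), h b, reflect_add, reflect_add,
      reflect_C_mul, reflect_C_mul, reflect_reflect]

end Pool.C1.helper69
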